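import Pool.Agent.H83.AR.Targets3
import Pool.Agent.H54.LS.AVG

/-!
Local smoothing with one angular derivative, module JM: the splitting of `ℝ^(a+b)`.
-/

set_option autoImplicit false

namespace Pool.Agent.H71.BR

open MeasureTheory Set FourierTransform
open Pool.Agent.H83.LS Pool.Agent.H93.AR Pool.Agent.H54.LS Pool.Agent.H14.LS Pool.Agent.H83.AR
open scoped ENNReal NNReal SchwartzMap

theorem jm_left (a b : ℕ) (y : EE a) (z : EE b) (i : Fin a) :
    jm a b y z (Fin.castAdd b i) = y i := by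
  show Fin.append (fun i => y i) (fun i => z i) (Fin.castAdd b i) = y i
  rw [Fin.append_left]

theorem jm_right (a b : ℕ) (y : EE a) (z : EE b) (i : Fin b) :
    jm a b y z (Fin.natAdd a i) = z i := by
  show Fin.append (fun i => y i) (fun i => z i) (Fin.natAdd a i) = z i
  rw [Fin.append_right]

theorem p1_jm (a b : ℕ) (y : EE a) (z : EE b) : p1 a b (jm a b y z) = y := by
  ext i
  show jm a b y z (Fin.castAdd b i) = y i
  exact jm_left a b y z i

theorem p2_jm (a b : ℕ) (y : EE a) (z : EE b) : p2 a b (jm a b y z) = z := by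
  ext i
  show jm a b y z (Fin.natAdd a i) = z i
  exact jm_right a b y z i

theorem jm_p (a b : ℕ) (x : EE (a + b)) : jm a b (p1 a b x) (p2 a b x) = x := by
  ext i
  refine Fin.addCases (fun j => ?_) (fun j => ?_) i
  · rw [jm_left]
    rfl
  · rw [jm_right]
    rfl

theorem inner_p (a b : ℕ) (x y : EE (a + b)) :
    inner ℝ x y = inner ℝ (p1 a b x) (p1 a b y) + inner ℝ (p2 a b x) (p2 a b y) := by
  rw [PiLp.inner_apply, PiLp.inner_apply, PiLp.inner_apply, Fin.sum_univ_add]
  rfl

theorem norm_p (a b : ℕ) (x : EE (a + b)) : ‖x‖ ^ 2 = ‖p1 a b x‖ ^ 2 + ‖p2 a b x‖ ^ 2 := by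
  rw [← real_inner_self_eq_norm_sq, inner_p, real_inner_self_eq_norm_sq,
    real_inner_self_eq_norm_sq]

theorem cont_p1 (a b : ℕ) : Continuous (p1 a b) := by
  unfold p1
  refine (PiLp.continuous_toLp 2 _).comp ?_
  fun_prop

theorem cont_p2 (a b : ℕ) : Continuous (p2 a b) := by
  unfold p2
  refine (PiLp.continuous_toLp 2 _).comp ?_
  fun_prop

theorem cont_jm (a b : ℕ) : Continuous fun q : EE a × EE b => jm a b q.1 q.2 := by
  unfold jm
  refine (PiLp.continuous_toLp 2 _).comp ?_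
  refine continuous_pi fun i => ?_
  refine Fin.addCases (fun j => ?_) (fun j => ?_) i
  · simp only [Fin.append_left]
    fun_prop
  · simp only [Fin.append_right]
    fun_prop

theorem cont_sw (a b : ℕ) : Continuous (sw a b) :=
  (cont_jm b a).comp ((cont_p2 a b).prodMk (cont_p1 a b))

theorem mp_jm (a b : ℕ) : MeasurePreserving (fun q : EE a × EE b => jm a b q.1 q.2)
    (volume.prod volume) volume := by
  have h1 : MeasurePreserving
      (Prod.map (@WithLp.ofLp 2 (Fin a → ℝ)) (@WithLp.ofLp 2 (Fin b → ℝ)))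
      ((volume : Measure (EE a)).prod (volume : Measure (EE b))) (volume.prod volume) :=
    (PiLp.volume_preserving_ofLp (Fin a)).prod (PiLp.volume_preserving_ofLp (Fin b))
  have h2 := volume_measurePreserving_sumPiEquivProdPi_symm (fun _ : Fin a ⊕ Fin b => ℝ)
  have h3 := volume_measurePreserving_piCongrLeft (fun _ : Fin (a + b) => ℝ)
    (finSumFinEquiv : Fin a ⊕ Fin b ≃ Fin (a + b))
  have h4 := PiLp.volume_preserving_toLp (Fin (a + b))
  have h5 := h4.comp (h3.comp (h2.comp h1))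
  have h6 : (fun q : EE a × EE b => jm a b q.1 q.2) =
      (@WithLp.toLp 2 (Fin (a + b) → ℝ)) ∘
        ((MeasurableEquiv.piCongrLeft (fun _ : Fin (a + b) => ℝ)
          (finSumFinEquiv : Fin a ⊕ Fin b ≃ Fin (a + b))) ∘
          ((MeasurableEquiv.sumPiEquivProdPi (fun _ : Fin a ⊕ Fin b => ℝ)).symm ∘
            (Prod.map (@WithLp.ofLp 2 (Fin a → ℝ)) (@WithLp.ofLp 2 (Fin b → ℝ))))) := by
    funext q
    obtain ⟨y, z⟩ := q
    ext i
    refine Fin.addCases (fun j => ?_) (fun j => ?_) i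
    · rw [jm_left]
      show y j = (Equiv.piCongrLeft (fun _ : Fin (a + b) => ℝ)
        (finSumFinEquiv : Fin a ⊕ Fin b ≃ Fin (a + b)))
        ((MeasurableEquiv.sumPiEquivProdPi (fun _ : Fin a ⊕ Fin b => ℝ)).symm
          (WithLp.ofLp y, WithLp.ofLp z)) (finSumFinEquiv (Sum.inl j))
      rw [Equiv.piCongrLeft_apply_apply]
      rfl
    · rw [jm_right]
      show z j = (Equiv.piCongrLeft (fun _ : Fin (a + b) => ℝ)
        (finSumFinEquiv : Fin a ⊕ Fin b ≃ Fin (a + b)))
        ((MeasurableEquiv.sumPiEquivProdPi (fun _ : Fin a ⊕ Fin b => ℝ)).symm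
          (WithLp.ofLp y, WithLp.ofLp z)) (finSumFinEquiv (Sum.inr j))
      rw [Equiv.piCongrLeft_apply_apply]
      rfl
  rw [h6]
  exact h5

theorem mp_swp (a b : ℕ) : MeasurePreserving (fun q : EE b × EE a => jm a b q.2 q.1)
    (volume.prod volume) volume := by
  have h := (mp_jm a b).comp
    (Measure.measurePreserving_swap (μ := (volume : Measure (EE b)))
      (ν := (volume : Measure (EE a))))
  exact h

theorem mp_cyl1 (a b : ℕ) (ha : 1 ≤ a) : MeasurePreserving
    (fun q : Sp a × (Ioi (0 : ℝ) × EE b) => jm a b ((q.2.1 : ℝ) • (q.1 : EE a)) q.2.2)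
      ((sg a).prod ((nu a).prod volume)) volume := by
  have h2 : MeasurePreserving
      (Prod.map (fun q : Sp a × Ioi (0 : ℝ) => (q.2 : ℝ) • (q.1 : EE a)) (id : EE b → EE b))
      (((sg a).prod (nu a)).prod volume) (volume.prod volume) :=
    (mp_polar a ha).prod (MeasurePreserving.id volume)
  have h4 := (measurePreserving_prodAssoc (sg a) (nu a) (volume : Measure (EE b))).symm
  exact ((mp_jm a b).comp h2).comp h4

theorem mp_cyl2 (a b : ℕ) (hb : 1 ≤ b) : MeasurePreserving
    (fun q : Sp b × (Ioi (0 : ℝ) × EE a) => jm a b q.2.2 ((q.2.1 : ℝ) • (q.1 : EE b)))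
      ((sg b).prod ((nu b).prod volume)) volume := by
  have h2 : MeasurePreserving
      (Prod.map (fun q : Sp b × Ioi (0 : ℝ) => (q.2 : ℝ) • (q.1 : EE b)) (id : EE a → EE a))
      (((sg b).prod (nu b)).prod volume) (volume.prod volume) :=
    (mp_polar b hb).prod (MeasurePreserving.id volume)
  have h4 := (measurePreserving_prodAssoc (sg b) (nu b) (volume : Measure (EE a))).symm
  exact ((mp_swp a b).comp h2).comp h4

theorem sw_jm (a b : ℕ) (y : EE a) (z : EE b) : sw a b (jm a b y z) = jm b a z y := by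
  unfold sw
  rw [p1_jm, p2_jm]

theorem mp_sw (a b : ℕ) : MeasurePreserving (sw a b) volume volume := by
  refine ⟨(cont_sw a b).measurable, ?_⟩
  have h1 := (mp_jm a b).map_eq
  have h2 := (mp_swp b a).map_eq
  rw [← h1, Measure.map_map (cont_sw a b).measurable (mp_jm a b).measurable]
  have h3 : sw a b ∘ (fun q : EE a × EE b => jm a b q.1 q.2) = fun q => jm b a q.2 q.1 := by
    funext q
    exact sw_jm a b q.1 q.2
  rw [h3, h2]

/-- JM -/
theorem pf_jm : T_JM := by
  intro a b
  have hsw : ∀ x y : EE (a + b), inner ℝ (sw a b x) (sw a b y) = inner ℝ x y := by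
    intro x y
    rw [inner_p b a, inner_p a b x y]
    unfold sw
    rw [p1_jm, p1_jm, p2_jm, p2_jm, add_comm]
  refine ⟨fun y z => ⟨p1_jm a b y z, p2_jm a b y z⟩, jm_p a b, inner_p a b, norm_p a b,
    cont_jm a b, cont_p1 a b, cont_p2 a b, cont_sw a b, mp_jm a b, mp_cyl1 a b, mp_cyl2 a b,
    mp_sw a b, fun x => ⟨?_, ?_, ?_, ?_⟩, hsw⟩
  · unfold sw
    rw [p1_jm, p2_jm, jm_p]
  · have h1 := hsw x x
    rw [real_inner_self_eq_norm_sq, real_inner_self_eq_norm_sq] at h1
    exact (sq_eq_sq₀ (norm_nonneg _) (norm_nonneg _)).1 h1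
  · unfold sw
    rw [p1_jm]
  · unfold sw
    rw [p2_jm]

end Pool.Agent.H71.BR
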