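import Pool.Agent.H93.AR.TargetsD
import Pool.Agent.H73.LS.FING

/-!
Local smoothing with the fraction `2 / p` of an angular derivative: the theorem from the dyadic
blocks (module FN1).
-/

set_option autoImplicit false

namespace Pool.Agent.H71.BR

open MeasureTheory Set FourierTransform Pool.Agent.H83.LS Pool.Agent.H54.LS Pool.Agent.H93.AR
open scoped ENNReal NNReal SchwartzMap

/-- the geometric mean dominates the smaller number -/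
lemma le_gm (a b : ℝ) (ha : 0 ≤ a) (hb : 0 ≤ b) (hab : a + b = 1) {N₀ N₁ : ℝ≥0∞}
    (h : N₀ ≤ N₁) : N₀ ≤ N₀ ^ a * N₁ ^ b := by
  calc N₀ = N₀ ^ (a + b) := by rw [hab, ENNReal.rpow_one]
    _ = N₀ ^ a * N₀ ^ b := ENNReal.rpow_add_of_nonneg _ _ ha hb
    _ ≤ N₀ ^ a * N₁ ^ b := by gcongr

/-- powers of the geometric mean -/
lemma gm_rpow (a b p : ℝ) (hp : 0 ≤ p) (N₀ N₁ : ℝ≥0∞) :
    (N₀ ^ p) ^ a * (N₁ ^ p) ^ b = (N₀ ^ a * N₁ ^ b) ^ p := by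
  rw [ENNReal.mul_rpow_of_nonneg _ _ hp, ← ENNReal.rpow_mul, ← ENNReal.rpow_mul,
    ← ENNReal.rpow_mul, ← ENNReal.rpow_mul, mul_comm p a, mul_comm p b]

/-- FN1 -/
theorem pf_fn1 (hHG1 : T_HG1) (hLOWF : T_LOWF) (hYG : T_YG) (hPLE : T_PLE) : T_FN1 := by
  intro n p σ hn hp hσ
  have hn0 : (0 : ℝ) < n := by positivity
  have hp2 : 2 < p := by
    have : (0 : ℝ) < 2 / n := by positivity
    linarith
  have hp1 : 1 ≤ p := by linarith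
  have hp0 : 0 < p := lt_of_lt_of_le one_pos hp1
  have hδ := Pool.Agent.H73.LS.delta_pos n p σ hn hp hσ
  have ha : 0 ≤ 1 - 2 / p := by
    rw [sub_nonneg, div_le_one hp0]
    exact hp2.le
  have hb : 0 ≤ 2 / p := by positivity
  obtain ⟨C₀, h₀⟩ := hHG1 n p ((n : ℝ) / 2 - n / p - σ) ((1 - p * σ) / 2) hn hp hδ
  obtain ⟨C₁, h₁⟩ := hHG1 n p ((n : ℝ) / 2 - n / p - 1 - σ) ((1 - p * σ) / 2) hn hp hδ
  obtain ⟨C, hC⟩ := Pool.Agent.H73.LS.both hLOWF hPLE hYG (n + 1) (by omega) p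
    ((1 - p * σ) / 2) ((n : ℝ) / 2 - n / p - σ) ((n : ℝ) / 2 - n / p - 1 - σ) hp1 hδ (C₀ + C₁)
  refine ⟨2 * C, fun u₀ u₁ N₀ N₁ hN hN₀ hN₁ => ?_⟩
  have e₀ : (n : ℝ) * (p / 2 - 1) - 1 - p * ((n : ℝ) / 2 - n / p - σ) + (1 - p * σ) / 2 =
      -((1 - p * σ) / 2) := by
    field_simp
    ring
  have e₁ : (n : ℝ) * (p / 2 - 1) - 1 - p * ((n : ℝ) / 2 - n / p - 1 - σ + 1) +
      (1 - p * σ) / 2 = -((1 - p * σ) / 2) := by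
    field_simp
    ring
  have hD : N₀ ≤ N₀ ^ (1 - 2 / p) * N₁ ^ (2 / p) := le_gm _ _ ha hb (by ring) hN
  have hDp : N₀ ^ p ≤ (N₀ ^ (1 - 2 / p) * N₁ ^ (2 / p)) ^ p := ENNReal.rpow_le_rpow hD hp0.le
  have hNp : N₀ ^ p ≤ N₁ ^ p := ENNReal.rpow_le_rpow hN hp0.le
  have g₀ : ∫⁻ x, ‖besS ((n : ℝ) / 2 - n / p - σ) u₀ x‖ₑ ^ p ≤ N₀ ^ p := by
    rw [← Pool.Agent.H73.LS.eLp_pow p hp0]
    exact ENNReal.rpow_le_rpow (le_self_add.trans hN₀) hp0.le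
  have g₁ : ∫⁻ x, ‖besS ((n : ℝ) / 2 - n / p - 1 - σ) u₁ x‖ₑ ^ p ≤ N₀ ^ p := by
    rw [← Pool.Agent.H73.LS.eLp_pow p hp0]
    exact ENNReal.rpow_le_rpow (le_add_self.trans hN₀) hp0.le
  have k₀ : ∀ i j : Fin n,
      ∫⁻ x, ‖besS ((n : ℝ) / 2 - n / p - σ) (rot i j u₀) x‖ₑ ^ p ≤ N₁ ^ p := by
    intro i j
    rw [← Pool.Agent.H73.LS.eLp_pow p hp0]
    exact ENNReal.rpow_le_rpow (le_self_add.trans (hN₁ i j)) hp0.le
  have k₁ : ∀ i j : Fin n,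
      ∫⁻ x, ‖besS ((n : ℝ) / 2 - n / p - 1 - σ) (rot i j u₁) x‖ₑ ^ p ≤ N₁ ^ p := by
    intro i j
    rw [← Pool.Agent.H73.LS.eLp_pow p hp0]
    exact ENNReal.rpow_le_rpow (le_add_self.trans (hN₁ i j)) hp0.le
  refine (hC u₀ u₁ (N₀ ^ (1 - 2 / p) * N₁ ^ (2 / p)) (N₀ ^ (1 - 2 / p) * N₁ ^ (2 / p))
    (g₀.trans hDp) (g₁.trans hDp) (fun lam hlam => ?_) (fun lam hlam => ?_)).trans ?_
  · have h2 := (h₀ lam u₀ (N₀ ^ p) (N₁ ^ p) hlam hNp g₀ k₀).1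
    rw [e₀, gm_rpow _ _ _ hp0.le] at h2
    refine h2.trans ?_
    gcongr
    exact_mod_cast le_self_add
  · have h2 := (h₁ lam u₁ (N₀ ^ p) (N₁ ^ p) hlam hNp g₁ k₁).2
    rw [e₁, gm_rpow _ _ _ hp0.le] at h2
    refine h2.trans ?_
    gcongr
    exact_mod_cast le_add_self
  · push_cast
    rw [← two_mul]
    apply le_of_eq
    ring

end Pool.Agent.H71.BR
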