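import Pool.Agent.H84.B2.Targets
import Pool.Agent.H50.BR.CKP
import Pool.Agent.H71.BR.JM

/-!
Local smoothing with one angular derivative, stage 2, module PK: the kernel of the pieces as an
oscillatory integral over the sphere.
-/

set_option autoImplicit false

namespace Pool.Agent.H71.BR

open MeasureTheory Set FourierTransform
open Pool.Agent.H84.B2 Pool.Agent.H84.BR Pool.Agent.H83.AR Pool.Agent.H93.AR Pool.Agent.H83.LS
open Pool.Agent.H54.LS Pool.Agent.H14.LS Pool.Agent.H50.BR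

theorem p1_smul (a b : ℕ) (r : ℝ) (x : EE (a + b)) : p1 a b (r • x) = r • p1 a b x := by
  ext i
  rfl

theorem p2_smul (a b : ℕ) (r : ℝ) (x : EE (a + b)) : p2 a b (r • x) = r • p2 a b x := by
  ext i
  rfl

theorem CT_abs_le {Lam : ℝ} {c : ℝ → ℝ} (h : CT Lam c) (s : ℝ) : |c s| ≤ 1 := by
  rcases h with h | h
  · rw [h, abs_of_nonneg (eta0_nonneg _)]
    exact eta0_le_one _
  · rw [h]
    exact chi_abs_le _

theorem CT_meas {Lam : ℝ} {c : ℝ → ℝ} (h : CT Lam c) : Measurable c := by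
  rcases h with h | h
  · have : c = fun s => eta0 (s / Lam) := funext h
    rw [this]
    unfold eta0
    exact Real.smoothTransition.continuous.measurable.comp (by fun_prop)
  · have : c = fun s => chi (s / Lam) := funext h
    rw [this]
    exact chi_smooth.continuous.measurable.comp (by fun_prop)

/-- the integrand in polar coordinates -/
noncomputable def HPK (a b : ℕ) (c₁ c₂ : ℝ → ℝ) (lam t : ℝ) (x w : EE (a + b)) (r : ℝ) : ℂ :=
  ((r ^ (a + b - 1) : ℝ) : ℂ) * (e (r * (t + inner ℝ x w)) *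
    ((chi (r / lam) * (c₁ (r * ‖p1 a b w‖) * c₂ (r * ‖p2 a b w‖)) : ℝ) : ℂ))

theorem inner_int_pk (a b : ℕ) (c₁ c₂ : ℝ → ℝ) (ha : 1 ≤ a) {lam t : ℝ} (hl : 0 < lam)
    (x : EE (a + b)) (w : Sp (a + b)) :
    ∫ ρ : Ioi (0 : ℝ), e (inner ℝ x ((ρ : ℝ) • (w : EE (a + b)))) *
        mc a b c₁ c₂ lam t ((ρ : ℝ) • (w : EE (a + b))) ∂(nu (a + b)) =
      ((lam ^ (a + b) : ℝ) : ℂ) * ∫ s : ℝ, e (s * (lam * (t + inner ℝ x (w : EE (a + b))))) *
        gK a b c₁ c₂ lam (s, (w : EE (a + b))) := by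
  rw [nu_bint (a + b) (fun r => e (inner ℝ x (r • (w : EE (a + b)))) *
        mc a b c₁ c₂ lam t (r • (w : EE (a + b))))]
  have h1 : ∫ r in Ioi (0 : ℝ), ((r ^ (a + b - 1) : ℝ) : ℂ) *
      (e (inner ℝ x (r • (w : EE (a + b)))) * mc a b c₁ c₂ lam t (r • (w : EE (a + b)))) =
      ∫ r in Ioi (0 : ℝ), HPK a b c₁ c₂ lam t x w r := by
    refine setIntegral_congr_fun measurableSet_Ioi fun r hr => ?_
    have hr0 : 0 < r := hr
    show ((r ^ (a + b - 1) : ℝ) : ℂ) * (e (inner ℝ x (r • (w : EE (a + b)))) *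
      mc a b c₁ c₂ lam t (r • (w : EE (a + b)))) = HPK a b c₁ c₂ lam t x w r
    unfold mc mT HPK
    rw [p1_smul, p2_smul, norm_smul, norm_smul, norm_smul, nsp, mul_one,
      Real.norm_of_nonneg hr0.le, real_inner_smul_right]
    have h2 : e (r * (t + inner ℝ x (w : EE (a + b)))) =
        e (r * inner ℝ x (w : EE (a + b))) * e (t * r) := by
      rw [← e_add]
      congr 1
      ring
    rw [h2]
    push_cast
    ring
  rw [h1]
  have h2 : ∫ r in Ioi (0 : ℝ), HPK a b c₁ c₂ lam t x w r =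
      ∫ r : ℝ, HPK a b c₁ c₂ lam t x w r := by
    refine setIntegral_eq_integral_of_forall_compl_eq_zero fun r hr => ?_
    have hr0 : r ≤ 0 := not_lt.1 hr
    have h3 : chi (r / lam) = 0 := by
      by_contra h4
      have h5 := (chi_supp h4).1
      have h6 : r / lam ≤ 0 := div_nonpos_of_nonpos_of_nonneg hr0 hl.le
      linarith
    unfold HPK
    rw [h3, zero_mul, Complex.ofReal_zero, mul_zero, mul_zero]
  rw [h2]
  have h3 := Measure.integral_comp_mul_left (fun r => HPK a b c₁ c₂ lam t x w r) lam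
  rw [abs_of_pos (inv_pos.2 hl)] at h3
  have h4 : ∫ r : ℝ, HPK a b c₁ c₂ lam t x w r =
      ((lam : ℝ) : ℂ) * ∫ s : ℝ, HPK a b c₁ c₂ lam t x w (lam * s) := by
    rw [h3, Complex.real_smul, ← mul_assoc, ← Complex.ofReal_mul, mul_inv_cancel₀ hl.ne',
      Complex.ofReal_one, one_mul]
  rw [h4, ← integral_const_mul, ← integral_const_mul]
  refine integral_congr_ae (Filter.Eventually.of_forall fun s => ?_)
  simp only
  unfold HPK gK
  simp only
  have h5 : lam * s / lam = s := by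
    rw [mul_comm, mul_div_assoc, div_self hl.ne', mul_one]
  have h7 : lam * s * (t + inner ℝ x (w : EE (a + b))) =
      s * (lam * (t + inner ℝ x (w : EE (a + b)))) := by ring
  have h8 : lam ^ (a + b) = lam * lam ^ (a + b - 1) := by
    rw [← pow_succ', Nat.sub_add_cancel (by omega)]
  have h9 : lam * s * ‖p1 a b (w : EE (a + b))‖ = lam * (s * ‖p1 a b (w : EE (a + b))‖) := by ring
  have h10 : lam * s * ‖p2 a b (w : EE (a + b))‖ = lam * (s * ‖p2 a b (w : EE (a + b))‖) := by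
    ring
  rw [h5, h7, h8, h9, h10, mul_pow]
  push_cast
  ring

theorem norm_gK_le (a b : ℕ) {c₁ c₂ : ℝ → ℝ} (h₁ : ∀ s, |c₁ s| ≤ 1) (h₂ : ∀ s, |c₂ s| ≤ 1)
    (lam s : ℝ) (w : EE (a + b)) :
    ‖gK a b c₁ c₂ lam (s, w)‖ ≤ (Icc (0 : ℝ) 2).indicator (fun _ => (2 : ℝ) ^ (a + b - 1)) s := by
  unfold gK
  simp only
  by_cases hs : chi s = 0
  · rw [hs, mul_zero, zero_mul, zero_mul, Complex.ofReal_zero, norm_zero]
    exact indicator_nonneg (fun _ _ => by positivity) _
  · have h1 := chi_supp hs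
    rw [indicator_of_mem (show s ∈ Icc (0 : ℝ) 2 from ⟨by linarith, h1.2⟩)]
    rw [Complex.norm_real, norm_mul, norm_mul, norm_mul, norm_pow, Real.norm_eq_abs,
      Real.norm_eq_abs, Real.norm_eq_abs, Real.norm_eq_abs,
      abs_of_nonneg (show (0 : ℝ) ≤ s by linarith)]
    have h2 : s ^ (a + b - 1) ≤ 2 ^ (a + b - 1) := pow_le_pow_left₀ (by linarith) h1.2 _
    calc s ^ (a + b - 1) * |chi s| * |c₁ (lam * (s * ‖p1 a b w‖))| *
          |c₂ (lam * (s * ‖p2 a b w‖))| ≤ 2 ^ (a + b - 1) * 1 * 1 * 1 := by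
          gcongr
          · exact chi_abs_le _
          · exact h₁ _
          · exact h₂ _
      _ = 2 ^ (a + b - 1) := by ring

theorem gK_meas (a b : ℕ) {c₁ c₂ : ℝ → ℝ} (h₁ : Measurable c₁) (h₂ : Measurable c₂) (lam : ℝ) :
    Measurable (gK a b c₁ c₂ lam) := by
  unfold gK
  apply Complex.measurable_ofReal.comp
  refine Measurable.mul (Measurable.mul (Measurable.mul ?_ ?_) ?_) ?_
  · fun_prop
  · exact chi_smooth.continuous.measurable.comp measurable_fst
  · exact h₁.comp (measurable_const.mul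
      (measurable_fst.mul ((cont_p1 a b).measurable.comp measurable_snd).norm))
  · exact h₂.comp (measurable_const.mul
      (measurable_fst.mul ((cont_p2 a b).measurable.comp measurable_snd).norm))

theorem mc_meas (a b : ℕ) {c₁ c₂ : ℝ → ℝ} (h₁ : Measurable c₁) (h₂ : Measurable c₂)
    (lam t : ℝ) : Measurable (mc a b c₁ c₂ lam t) := by
  unfold mc
  refine Measurable.mul ?_ ?_
  · exact (mT_meas lam).comp (measurable_const.prodMk measurable_id)
  · exact Complex.measurable_ofReal.comp ((h₁.comp (cont_p1 a b).measurable.norm).mul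
      (h₂.comp (cont_p2 a b).measurable.norm))

theorem mc_int (a b : ℕ) {c₁ c₂ : ℝ → ℝ} (h₁ : Measurable c₁) (h₂ : Measurable c₂)
    (k₁ : ∀ s, |c₁ s| ≤ 1) (k₂ : ∀ s, |c₂ s| ≤ 1) {lam : ℝ} (hl : 0 < lam) (t : ℝ) :
    Integrable (mc a b c₁ c₂ lam t) := by
  refine (mT_int (d := a + b) hl t).norm.mono' (mc_meas a b h₁ h₂ lam t).aestronglyMeasurable
    (Filter.Eventually.of_forall fun ξ => ?_)
  unfold mc
  rw [norm_mul, Complex.norm_real, Real.norm_eq_abs, abs_mul]
  calc ‖mT lam t ξ‖ * (|c₁ ‖p1 a b ξ‖| * |c₂ ‖p2 a b ξ‖|) ≤ ‖mT lam t ξ‖ * (1 * 1) := by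
        gcongr
        · exact k₁ _
        · exact k₂ _
    _ = ‖mT lam t ξ‖ := by ring

/-- PK: the kernel as an oscillatory integral over the sphere -/
theorem pf_pk : T_PK := by
  intro a b lam Lam₁ Lam₂ t r c₁ c₂ u ha hb hl hc₁ hc₂ hr hu
  have m₁ := CT_meas hc₁
  have m₂ := CT_meas hc₂
  have b₁ := CT_abs_le hc₁
  have b₂ := CT_abs_le hc₂
  set x : EE (a + b) := -(r • u) with hx
  have hA : MK (mc a b c₁ c₂ lam t) x = ((lam ^ (a + b) : ℝ) : ℂ) * ∫ w : Sp (a + b), ∫ s : ℝ,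
      e (s * (lam * (t + inner ℝ x (w : EE (a + b))))) *
        gK a b c₁ c₂ lam (s, (w : EE (a + b))) ∂volume ∂(sg (a + b)) := by
    unfold MK
    have hFi : Integrable (fun ξ : EE (a + b) => e (inner ℝ x ξ) * mc a b c₁ c₂ lam t ξ) := by
      refine (mc_int a b m₁ m₂ b₁ b₂ hl t).norm.mono' ?_ (Filter.Eventually.of_forall fun ξ => ?_)
      · exact ((measurable_e.comp (by fun_prop)).mul
          (mc_meas a b m₁ m₂ lam t)).aestronglyMeasurable
      · rw [norm_mul, norm_e, one_mul]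
    rw [← integral_mp (mp_polar (a + b) (by omega)) hFi.aestronglyMeasurable]
    have hFi' : Integrable (fun q : Sp (a + b) × Ioi (0 : ℝ) =>
        e (inner ℝ x ((q.2 : ℝ) • (q.1 : EE (a + b)))) *
          mc a b c₁ c₂ lam t ((q.2 : ℝ) • (q.1 : EE (a + b)))) ((sg (a + b)).prod (nu (a + b))) :=
      (mp_polar (a + b) (by omega)).integrable_comp_of_integrable hFi
    rw [integral_prod _ hFi', ← integral_const_mul]
    refine integral_congr_ae (Filter.Eventually.of_forall fun w => ?_)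
    exact inner_int_pk a b c₁ c₂ ha hl x w
  rw [hA]
  congr 1
  unfold osc
  have h1 : ∀ (s : ℝ) (w : Sp (a + b)),
      e (s * (lam * t - lam * r * inner ℝ u (w : EE (a + b)))) *
        gK a b c₁ c₂ lam (s, (w : EE (a + b))) =
      e (s * (lam * (t + inner ℝ x (w : EE (a + b))))) *
        gK a b c₁ c₂ lam (s, (w : EE (a + b))) := by
    intro s w
    congr 2
    rw [hx, inner_neg_left, real_inner_smul_left]
    ring
  simp_rw [h1]
  refine integral_integral_swap (f := fun (w : Sp (a + b)) (s : ℝ) =>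
    e (s * (lam * (t + inner ℝ x (w : EE (a + b))))) *
      gK a b c₁ c₂ lam (s, (w : EE (a + b)))) ?_
  have hI : Integrable (fun q : Sp (a + b) × ℝ =>
      (1 : ℝ) * (Icc (0 : ℝ) 2).indicator (fun _ => (2 : ℝ) ^ (a + b - 1)) q.2)
      ((sg (a + b)).prod volume) := by
    refine Integrable.mul_prod (integrable_const (1 : ℝ)) ?_
    rw [integrable_indicator_iff measurableSet_Icc]
    exact integrableOn_const measure_Icc_lt_top.ne (by finiteness)
  refine hI.mono' ?_ (Filter.Eventually.of_forall fun q => ?_)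
  · apply Measurable.aestronglyMeasurable
    apply Measurable.mul
    · refine measurable_e.comp (measurable_snd.mul (measurable_const.mul (measurable_const.add ?_)))
      exact (Measurable.const_inner (measurable_subtype_coe.comp measurable_fst))
    · exact (gK_meas a b m₁ m₂ lam).comp
        (measurable_snd.prodMk (measurable_subtype_coe.comp measurable_fst))
  · show ‖e _ * gK a b c₁ c₂ lam (q.2, (q.1 : EE (a + b)))‖ ≤ _
    rw [norm_mul, norm_e, one_mul, one_mul]
    exact norm_gK_le a b b₁ b₂ _ _ _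

end Pool.Agent.H71.BR
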